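import Mathlib
import Pool.Agent.helper85.PG.Spec4
import Pool.Agent.helper85.PG.Basic

/-! pg:FNC: general form of Theorem A, from Freiman's theorem and Theorem A for systems. -/

set_option autoImplicit false

namespace Pool.Agent.helper85.PG

open Module Pointwise

theorem FNC (hFRE : FRE_stmt) (hCVR : CVR_stmt) (hPKC : PKC_stmt) (hTHA : THA_stmt) :
    FNC_stmt := by
  intro K ε hε
  obtain ⟨d, C₀, hC₀, hF⟩ := hFRE K
  obtain ⟨δ, p₀, hδ, hT⟩ := hTHA d (ε / 2) (by linarith)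
  set δ₁ : ℝ := min (ε / 4) (δ / 2) with hδ₁
  have hδ₁0 : 0 < δ₁ := lt_min (by linarith) (by linarith)
  have hδ₁a : δ₁ ≤ ε / 4 := min_le_left _ _
  have hδ₁b : δ₁ ≤ δ / 2 := min_le_right _ _
  set M : ℝ := max (5 ^ d * C₀) (1 + C₀ ^ 2 * max K 1) with hM
  have hM1 : 1 ≤ M := by
    refine le_trans ?_ (le_max_right _ _)
    have h1 : 0 ≤ C₀ ^ 2 * max K 1 :=
      mul_nonneg (by positivity) (zero_le_one.trans (le_max_right _ _))
    linarith
  refine ⟨δ₁ / 2, max p₀ ⌈M ^ (2 / δ₁)⌉₊, by linarith, ?_⟩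
  intro p hp hpp A B C hAne hBne hCne hCC hAC hB hE χ hχ β hβ
  classical
  have hp0 : p₀ ≤ p := (le_max_left _ _).trans hpp
  have hpC : M ^ (2 / δ₁) ≤ (p : ℝ) := by
    have h1 : ⌈M ^ (2 / δ₁)⌉₊ ≤ p := (le_max_right _ _).trans hpp
    exact (Nat.le_ceil _).trans (by exact_mod_cast h1)
  have hp1 : (1 : ℝ) ≤ p := by
    have := hp.out.one_lt.le
    exact_mod_cast this
  have hppos : (0 : ℝ) < p := by linarith
  have hMp : M ≤ (p : ℝ) ^ (δ₁ / 2) := by
    have h1 : (M ^ (2 / δ₁)) ^ (δ₁ / 2) = M := by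
      rw [← Real.rpow_mul (by linarith)]
      have : 2 / δ₁ * (δ₁ / 2) = 1 := by field_simp
      rw [this, Real.rpow_one]
    calc M = (M ^ (2 / δ₁)) ^ (δ₁ / 2) := h1.symm
      _ ≤ (p : ℝ) ^ (δ₁ / 2) :=
        Real.rpow_le_rpow (Real.rpow_nonneg (by linarith) _) hpC (by linarith)
  obtain ⟨P, F, hP, hFC, hPC, hcov⟩ := hF p C hCne hCC
  obtain ⟨X, hXA, _, hXc, hXcard⟩ := hCVR p A C hCne
  have hA0 : (0 : ℝ) < A.card := by exact_mod_cast hAne.card_pos
  have hB0 : (0 : ℝ) < B.card := by exact_mod_cast hBne.card_pos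
  have hC0 : (0 : ℝ) < C.card := by exact_mod_cast hCne.card_pos
  have hpδ₁ : 0 < (p : ℝ) ^ (-δ₁) := Real.rpow_pos_of_pos hppos _
  -- the covering of `A`
  set Y : Finset (ZMod p) := X + F - F with hY
  have hcovA : ∀ a ∈ A, ∃ y ∈ Y, a - y ∈ P 2 := by
    intro a ha
    obtain ⟨x, hx, v, hv, v', hv', hxv⟩ := hXc a ha
    obtain ⟨f, hf, hvf⟩ := hcov v hv
    obtain ⟨f', hf', hvf'⟩ := hcov v' hv'
    refine ⟨x + f' - f, Finset.sub_mem_sub (Finset.add_mem_add hx hf') hf, ?_⟩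
    have h1 : a - (x + f' - f) = (v' - f') - (v - f) := by
      have : a = x + v' - v := by rw [← hxv]; ring
      rw [this]
      ring
    rw [h1]
    have h2 := hP.sub_mem hvf' hvf
    have h3 : (1 : ℝ) + 1 = 2 := by norm_num
    rw [h3] at h2
    exact h2
  have hYcard : (Y.card : ℝ) * C.card ≤ C₀ ^ 2 * max K 1 * A.card := by
    have h1 : Y.card ≤ X.card * F.card * F.card :=
      (Finset.card_sub_le).trans (Nat.mul_le_mul_right _ Finset.card_add_le)
    have h2 : (Y.card : ℝ) ≤ (X.card : ℝ) * F.card * F.card := by exact_mod_cast h1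
    have h3 : (X.card : ℝ) * C.card ≤ (A + C).card := by exact_mod_cast hXcard
    have h4 : (F.card : ℝ) * F.card ≤ C₀ ^ 2 := by
      rw [sq]
      exact mul_le_mul hFC hFC (Nat.cast_nonneg _) (by linarith)
    calc (Y.card : ℝ) * C.card ≤ ((X.card : ℝ) * F.card * F.card) * C.card :=
          mul_le_mul_of_nonneg_right h2 hC0.le
      _ = ((F.card : ℝ) * F.card) * ((X.card : ℝ) * C.card) := by ring
      _ ≤ C₀ ^ 2 * (max K 1 * A.card) := by
          refine mul_le_mul h4 (h3.trans (hAC.trans ?_)) (by positivity) (by positivity)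
          exact mul_le_mul_of_nonneg_right (le_max_left _ _) hA0.le
      _ = C₀ ^ 2 * max K 1 * A.card := by ring
  have hP2 : ((P 2).card : ℝ) ≤ M * C.card := by
    have h1 := (hPKC.2.2 p d P hP 2 1 (by norm_num) (by norm_num)).1
    have h2 : (1 + 2 * 2 / 1 : ℝ) = 5 := by norm_num
    rw [h2] at h1
    calc ((P 2).card : ℝ) ≤ 5 ^ d * ((P 1).card : ℝ) := h1
      _ ≤ 5 ^ d * (C₀ * C.card) := mul_le_mul_of_nonneg_left hPC (by positivity)
      _ = (5 ^ d * C₀) * C.card := by ring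
      _ ≤ M * C.card := mul_le_mul_of_nonneg_right (le_max_left _ _) hC0.le
  choose! g hg1 hg2 using hcovA
  -- each class
  have hcls : ∀ y ∈ Y, ∑ a ∈ A.filter (fun a => g a = y), ‖∑ b ∈ B, β b * χ (a + b)‖ ≤
      (p : ℝ) ^ (-δ₁) * ((((A.filter (fun a => g a = y)).card : ℝ) + C.card) * B.card) := by
    intro y _
    set Ay := A.filter (fun a => g a = y) with hAy
    have hAy0 : (0 : ℝ) ≤ Ay.card := Nat.cast_nonneg _
    by_cases hcase : (p : ℝ) ^ (-δ₁) * C.card ≤ Ay.card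
    · have h1 : ∀ a ∈ Ay, a - y ∈ (fun R => P (2 * R)) 1 := by
        intro a ha
        rw [hAy, Finset.mem_filter] at ha
        have h := hg2 a ha.1
        rw [ha.2] at h
        show a - y ∈ P (2 * 1)
        rw [mul_one]
        exact h
      have h2 : ((((fun R => P (2 * R)) 1 : Finset (ZMod p))).card : ℝ) ≤
          (p : ℝ) ^ δ * (Ay.card : ℝ) := by
        show (((P (2 * 1))).card : ℝ) ≤ (p : ℝ) ^ δ * (Ay.card : ℝ)
        rw [mul_one]
        have e1 : (C.card : ℝ) ≤ (p : ℝ) ^ δ₁ * Ay.card := by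
          have : (p : ℝ) ^ δ₁ * ((p : ℝ) ^ (-δ₁) * C.card) ≤ (p : ℝ) ^ δ₁ * Ay.card :=
            mul_le_mul_of_nonneg_left hcase (Real.rpow_nonneg hppos.le _)
          rw [← mul_assoc, ← Real.rpow_add hppos, add_neg_cancel, Real.rpow_zero, one_mul] at this
          exact this
        calc ((P 2).card : ℝ) ≤ M * C.card := hP2
          _ ≤ (p : ℝ) ^ (δ₁ / 2) * ((p : ℝ) ^ δ₁ * Ay.card) :=
            mul_le_mul hMp e1 hC0.le (Real.rpow_nonneg hppos.le _)
          _ = (p : ℝ) ^ (δ₁ / 2 + δ₁) * Ay.card := by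
            rw [Real.rpow_add hppos, mul_assoc]
          _ ≤ (p : ℝ) ^ δ * (Ay.card : ℝ) := by
            apply mul_le_mul_of_nonneg_right _ (Nat.cast_nonneg _)
            exact Real.rpow_le_rpow_of_exponent_le hp1 (by linarith)
      have h3 : (p : ℝ) ^ (ε / 2) ≤ (B.card : ℝ) :=
        (Real.rpow_le_rpow_of_exponent_le hp1 (by linarith)).trans hB
      have h4 : (p : ℝ) ^ (1 + ε / 2) * (B.addEnergy B : ℝ) ≤
          (Ay.card : ℝ) ^ 2 * (B.card : ℝ) ^ 4 := by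
        have e1 : (p : ℝ) ^ (1 + ε / 2) = (p : ℝ) ^ (-(ε / 2)) * (p : ℝ) ^ (1 + ε) := by
          rw [← Real.rpow_add hppos]
          congr 1
          ring
        have e2 : (p : ℝ) ^ (-(ε / 2)) ≤ ((p : ℝ) ^ (-δ₁)) ^ 2 := by
          have : ((p : ℝ) ^ (-δ₁)) ^ 2 = (p : ℝ) ^ (-δ₁ + -δ₁) := by
            rw [Real.rpow_add hppos, sq]
          rw [this]
          exact Real.rpow_le_rpow_of_exponent_le hp1 (by linarith)
        calc (p : ℝ) ^ (1 + ε / 2) * (B.addEnergy B : ℝ)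
            = (p : ℝ) ^ (-(ε / 2)) * ((p : ℝ) ^ (1 + ε) * (B.addEnergy B : ℝ)) := by
              rw [e1, mul_assoc]
          _ ≤ (p : ℝ) ^ (-(ε / 2)) * ((C.card : ℝ) ^ 2 * (B.card : ℝ) ^ 4) :=
              mul_le_mul_of_nonneg_left hE (Real.rpow_nonneg hppos.le _)
          _ ≤ ((p : ℝ) ^ (-δ₁)) ^ 2 * ((C.card : ℝ) ^ 2 * (B.card : ℝ) ^ 4) :=
              mul_le_mul_of_nonneg_right e2 (by positivity)
          _ = ((p : ℝ) ^ (-δ₁) * C.card) ^ 2 * (B.card : ℝ) ^ 4 := by ring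
          _ ≤ (Ay.card : ℝ) ^ 2 * (B.card : ℝ) ^ 4 := by
              apply mul_le_mul_of_nonneg_right _ (by positivity)
              exact pow_le_pow_left₀ (by positivity) hcase 2
      have h5 := hT p hp0 (fun R => P (2 * R)) (hP.scale (by norm_num : (0 : ℝ) < 2)) y Ay B
        h1 h2 h3 h4 χ hχ β hβ
      calc ∑ a ∈ Ay, ‖∑ b ∈ B, β b * χ (a + b)‖
          ≤ (p : ℝ) ^ (-δ) * ((Ay.card : ℝ) * (B.card : ℝ)) := h5
        _ ≤ (p : ℝ) ^ (-δ₁) * (((Ay.card : ℝ) + C.card) * B.card) := by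
          apply mul_le_mul _ _ (by positivity) hpδ₁.le
          · exact Real.rpow_le_rpow_of_exponent_le hp1 (by linarith)
          · exact mul_le_mul_of_nonneg_right (by linarith) hB0.le
    · push Not at hcase
      have h1 : ∀ a ∈ Ay, ‖∑ b ∈ B, β b * χ (a + b)‖ ≤ (B.card : ℝ) := by
        intro a _
        calc ‖∑ b ∈ B, β b * χ (a + b)‖ ≤ ∑ b ∈ B, ‖β b * χ (a + b)‖ := norm_sum_le _ _
          _ ≤ ∑ b ∈ B, (1 : ℝ) := by
            apply Finset.sum_le_sum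
            intro b _
            rw [norm_mul]
            have h2 : ‖χ (a + b)‖ ≤ 1 := DirichletCharacter.norm_le_one χ (a + b)
            calc ‖β b‖ * ‖χ (a + b)‖ ≤ 1 * 1 := mul_le_mul (hβ b) h2 (norm_nonneg _) zero_le_one
              _ = 1 := one_mul 1
          _ = (B.card : ℝ) := by rw [Finset.sum_const, nsmul_eq_mul, mul_one]
      calc ∑ a ∈ Ay, ‖∑ b ∈ B, β b * χ (a + b)‖ ≤ ∑ a ∈ Ay, (B.card : ℝ) := Finset.sum_le_sum h1
        _ = (Ay.card : ℝ) * B.card := by rw [Finset.sum_const, nsmul_eq_mul]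
        _ ≤ ((p : ℝ) ^ (-δ₁) * C.card) * B.card := mul_le_mul_of_nonneg_right hcase.le hB0.le
        _ = (p : ℝ) ^ (-δ₁) * ((0 + C.card) * B.card) := by ring
        _ ≤ (p : ℝ) ^ (-δ₁) * (((Ay.card : ℝ) + C.card) * B.card) := by
          apply mul_le_mul_of_nonneg_left _ hpδ₁.le
          exact mul_le_mul_of_nonneg_right (by linarith) hB0.le
  have hsum : ∑ a ∈ A, ‖∑ b ∈ B, β b * χ (a + b)‖ =
      ∑ y ∈ Y, ∑ a ∈ A.filter (fun a => g a = y), ‖∑ b ∈ B, β b * χ (a + b)‖ :=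
    (Finset.sum_fiberwise_of_maps_to (fun a ha => hg1 a ha) _).symm
  have hcardsum : ∑ y ∈ Y, ((A.filter (fun a => g a = y)).card : ℝ) = A.card := by
    have h1 := Finset.card_eq_sum_card_fiberwise (f := g) (s := A) (t := Y)
      (fun a ha => hg1 a ha)
    rw [h1]
    push_cast
    rfl
  rw [hsum]
  calc ∑ y ∈ Y, ∑ a ∈ A.filter (fun a => g a = y), ‖∑ b ∈ B, β b * χ (a + b)‖
      ≤ ∑ y ∈ Y, (p : ℝ) ^ (-δ₁) *
          ((((A.filter (fun a => g a = y)).card : ℝ) + C.card) * B.card) :=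
        Finset.sum_le_sum hcls
    _ = (p : ℝ) ^ (-δ₁) * (((A.card : ℝ) + Y.card * C.card) * B.card) := by
        rw [← Finset.mul_sum, ← Finset.sum_mul, Finset.sum_add_distrib, hcardsum,
          Finset.sum_const, nsmul_eq_mul]
    _ ≤ (p : ℝ) ^ (-δ₁) * ((M * A.card) * B.card) := by
        apply mul_le_mul_of_nonneg_left _ hpδ₁.le
        apply mul_le_mul_of_nonneg_right _ hB0.le
        calc (A.card : ℝ) + Y.card * C.card ≤ A.card + C₀ ^ 2 * max K 1 * A.card := by linarith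
          _ = (1 + C₀ ^ 2 * max K 1) * A.card := by ring
          _ ≤ M * A.card := mul_le_mul_of_nonneg_right (le_max_right _ _) hA0.le
    _ = M * ((p : ℝ) ^ (-δ₁) * ((A.card : ℝ) * B.card)) := by ring
    _ ≤ (p : ℝ) ^ (δ₁ / 2) * ((p : ℝ) ^ (-δ₁) * ((A.card : ℝ) * B.card)) :=
      mul_le_mul_of_nonneg_right hMp (by positivity)
    _ = (p : ℝ) ^ (-(δ₁ / 2)) * ((A.card : ℝ) * (B.card : ℝ)) := by
      rw [← mul_assoc, ← Real.rpow_add hppos]
      congr 2
      ring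

end Pool.Agent.helper85.PG
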